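import Pool.Agent.W2helper81.BY.Stm

/-! # Project BY, piece BAS: a transcendence basis gives a polynomial ring. -/

set_option autoImplicit false

namespace Pool.Agent.W2helper71.BY

open Polynomial
open Pool.Agent.W2helper81.BY

theorem BAS_ok : P_BAS := by
  intro k B _ _ _ _ m x hx
  have hind : AlgebraicIndependent k x := hx.1
  let e : (MvPolynomial (Fin m) k)[X] ≃ₐ[k] MvPolynomial (Fin (m + 1)) k :=
    (MvPolynomial.finSuccEquiv k m).symm
  let ψ : (MvPolynomial (Fin m) k)[X] →ₐ[k] B :=
    (MvPolynomial.aeval x).comp (e : (MvPolynomial (Fin m) k)[X] →ₐ[k] MvPolynomial (Fin (m + 1)) k)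
  refine ⟨ψ, ?_, ?_⟩
  · exact (algebraicIndependent_iff_injective_aeval.1 hind).comp e.injective
  · intro b
    obtain ⟨p, hp0, hp⟩ := (hx.isAlgebraic.isAlgebraic b)
    let g : Algebra.adjoin k (Set.range x) ≃ₐ[k] (MvPolynomial (Fin m) k)[X] :=
      hind.aevalEquiv.symm.trans e.symm
    refine ⟨p.map (g : Algebra.adjoin k (Set.range x) →+* (MvPolynomial (Fin m) k)[X]), ?_, ?_⟩
    · intro h0
      exact hp0 ((Polynomial.map_eq_zero_iff g.injective).1 h0)
    · rw [eval₂_map]
      have h1 : (ψ.toRingHom).comp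
          (g : Algebra.adjoin k (Set.range x) →+* (MvPolynomial (Fin m) k)[X])
          = algebraMap (Algebra.adjoin k (Set.range x)) B := by
        ext y
        change MvPolynomial.aeval x (e (e.symm (hind.aevalEquiv.symm y))) = (y : B)
        rw [e.apply_symm_apply]
        have h2 := hind.algebraMap_aevalEquiv (hind.aevalEquiv.symm y)
        rw [AlgEquiv.apply_symm_apply] at h2
        exact h2.symm
      rw [h1]
      exact hp

end Pool.Agent.W2helper71.BY
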